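import Pool.Agent.Lib.MP_1ef7cf_nt_r.Df

/-!
# TASK A4: divisibility of algebraic integers by powers of a prime number

PROOF. `bound_pow`: let `z ≠ 0` be integral. In the number field `ℚ⟮z⟯` (`IntermediateField.adjoin ℚ {z}`, finite dimensional)
the norm of `z` is a nonzero integer `N`. If `z = l ^ b * y` with `y` integral, then `y = z / l ^ b ∈ ℚ⟮z⟯` and
`N = l ^ (b * d) * Norm y`, `d ≥ 1`, `Norm y` an integer (`Algebra.isIntegral_norm`), so `l ^ b ∣ N` and `2 ^ b ≤ l ^ b ≤ |N|`;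
take `r = |N|`. (`r` must not depend on `b` and `y`.)
`bound_finite`: take the maximum over the finite set.
-/

set_option autoImplicit false

namespace Pool.Agent.STr

/-- the norm of an integral element is an integer -/
theorem A4_norm_int {F : Type*} [Field F] [Algebra ℚ F] [FiniteDimensional ℚ F] {x : F} (hx : IsIntegral ℤ x) :
    ∃ n : ℤ, Algebra.norm ℚ x = (n : ℚ) := by
  have h : IsIntegral ℤ (Algebra.norm ℚ x) := Algebra.isIntegral_norm ℚ hx
  obtain ⟨n, hn⟩ := IsIntegrallyClosed.isIntegral_iff.1 h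
  exact ⟨n, by rw [← hn]; simp⟩

theorem bound_pow {l : ℕ} (hl : l.Prime) {z : ℂ} (hz : z ≠ 0) (hi : IsIntegral ℤ z) :
    ∃ r : ℕ, ∀ (b : ℕ) (y : ℂ), IsIntegral ℤ y → z = (l : ℂ) ^ b * y → b ≤ r := by
  have hiQ : IsIntegral ℚ z := hi.tower_top
  have : FiniteDimensional ℚ (IntermediateField.adjoin ℚ {z}) := IntermediateField.adjoin.finiteDimensional hiQ
  set K := IntermediateField.adjoin ℚ {z} with hK
  have hzK : z ∈ K := IntermediateField.mem_adjoin_simple_self ℚ z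
  set z' : K := ⟨z, hzK⟩ with hz'
  have hz'0 : z' ≠ 0 := by
    intro h0
    exact hz (congrArg Subtype.val h0)
  have hcoe : Function.Injective (K.val : K → ℂ) := K.val.injective
  have hint : ∀ w : K, IsIntegral ℤ (w : ℂ) → IsIntegral ℤ w := by
    intro w hw
    exact (isIntegral_algHom_iff (K.val.restrictScalars ℤ) hcoe).1 hw
  obtain ⟨n, hn⟩ := A4_norm_int (hint z' hi)
  have hn0 : n ≠ 0 := by
    intro h0
    apply hz'0
    apply (Algebra.norm_eq_zero_iff (R := ℚ)).1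
    rw [hn, h0]; simp
  refine ⟨n.natAbs, fun b y hy hzy => ?_⟩
  have hl0 : (l : ℂ) ≠ 0 := by exact_mod_cast hl.ne_zero
  have hyK : y ∈ K := by
    have : y = z / (l : ℂ) ^ b := by
      rw [hzy]; field_simp
    rw [this]
    exact K.div_mem hzK (K.pow_mem (natCast_mem K l) b)
  set y' : K := ⟨y, hyK⟩ with hy'
  obtain ⟨m, hm⟩ := A4_norm_int (hint y' hy)
  have hmul : z' = (algebraMap ℚ K ((l : ℚ) ^ b)) * y' := by
    apply Subtype.ext
    rw [hz', hy']
    simp only [map_pow, map_natCast]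
    push_cast
    exact hzy
  have hnorm : (n : ℚ) = ((l : ℚ) ^ b) ^ (Module.finrank ℚ K) * (m : ℚ) := by
    rw [← hn, ← hm, hmul, map_mul, Algebra.norm_algebraMap]
  have hnorm' : n = ((l : ℤ) ^ b) ^ (Module.finrank ℚ K) * m := by
    exact_mod_cast hnorm
  have hd : 0 < Module.finrank ℚ K := Module.finrank_pos
  have hdvd : ((l : ℤ) ^ b) ∣ n := by
    rw [hnorm']
    exact Dvd.dvd.mul_right (dvd_pow_self _ hd.ne') m
  have hle : l ^ b ≤ n.natAbs := by
    apply Nat.le_of_dvd (Int.natAbs_pos.2 hn0)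
    have := Int.natAbs_dvd_natAbs.2 hdvd
    rwa [Int.natAbs_pow, Int.natAbs_natCast] at this
  have h2 : b < l ^ b := Nat.lt_pow_self hl.one_lt
  omega

theorem bound_finite {l : ℕ} (hl : l.Prime) {Z : Set ℂ} (hfin : Z.Finite) :
    ∃ r : ℕ, ∀ z ∈ Z, z ≠ 0 → IsIntegral ℤ z → ∀ (b : ℕ) (y : ℂ), IsIntegral ℤ y → z = (l : ℂ) ^ b * y → b ≤ r := by
  classical
  have hex : ∀ z : ℂ, ∃ r : ℕ, z ≠ 0 → IsIntegral ℤ z →
      ∀ (b : ℕ) (y : ℂ), IsIntegral ℤ y → z = (l : ℂ) ^ b * y → b ≤ r := by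
    intro z
    by_cases h : z ≠ 0 ∧ IsIntegral ℤ z
    · obtain ⟨r, hr⟩ := bound_pow hl h.1 h.2
      exact ⟨r, fun _ _ => hr⟩
    · exact ⟨0, fun h1 h2 => absurd ⟨h1, h2⟩ h⟩
  choose r hr using hex
  refine ⟨hfin.toFinset.sup r, fun z hz h0 hi b y hy hzy => ?_⟩
  exact (hr z h0 hi b y hy hzy).trans (Finset.le_sup (f := r) (hfin.mem_toFinset.2 hz))

end Pool.Agent.STr
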