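import Pool.Agent.Lib.MP_1ef7cf_nt_r.Df
import Pool.Agent.Lib.MP_1ef7cf_nt_r.Mg.G021

/-!
# TASK A5: characters with equal kernels; generation by elements of prime power order; twists

PROOF. `pow_of_ker`: the range of `ψ` is a finite subgroup of `ℂˣ`, hence cyclic; let `c : C` be such that `ψ c` generates it and let
`N` be its order, `N = orderOf (ψ c) = orderOf ψ` (`orderOf ψ` is the exponent of the range). Since `χ.ker = ψ.ker`, the order of `χ c`
is also `N` (`χ (c ^ j) = 1 ↔ ψ (c ^ j) = 1`), so `χ c` and `ψ c` are primitive `N`-th roots of unity and `χ c = ψ c ^ b` for some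
`b` (`IsPrimitiveRoot.eq_pow_of_pow_eq_one`). For `g : C`: `ψ g = ψ (c ^ j)`, so `g = c ^ j * k` with `k` in the common kernel and
`χ g = χ c ^ j = ψ c ^ (b j) = ψ g ^ b`.
`le_of_primePow`: strong induction on `orderOf x`, `x ∈ A`. If `orderOf x` is `1` or a prime power: `h` (`1 = p ^ 0`).
Otherwise `orderOf x = a * b` with `a, b > 1` coprime; `x` is a product of a power of `x ^ a` (order `b`) and a power of
`x ^ b` (order `a`) (Bezout); both are in `A`, of smaller order.
`twist`: `b ≡ 1 mod l ^ i`: for `g ∈ V` the hypothesis `χη = (ψη)^b` gives `η g = η g ^ b`; so the restriction of `η ^ (b-1)` (use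
integer exponents or `b ≥ 1`, replace `b` by `b + orderOf` if necessary: the statement is with natural numbers, `b` may be `0` only if
everything is trivial) to `V` is trivial, and since the restriction of `η` to `V` has order `l ^ i` we get `l ^ i ∣ b - 1`
(in `ℤ`), hence `η ^ b = η` on the whole group (`orderOf η = l ^ i`), `χ = ψ ^ b`, `χ * ψ⁻¹ = ψ ^ (b - 1)` (`zpow`). The order `N` of
`ψ` satisfies `¬ l ^ (i + 1) ∣ N`; write `N = l ^ j * N'`, `j ≤ i`, `¬ l ∣ N'`: `(ψ ^ (b - 1)) ^ N' = 1` since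
`l ^ j N' ∣ (b - 1) N'`. So `orderOf (χ * ψ⁻¹) ∣ N'`.
(This file: twist.)
-/

set_option autoImplicit false

namespace Pool.Agent.STr

variable {C : Type*} [CommGroup C]

theorem A5_abs {G : Type*} [CommGroup G] {χ ψ η : G} {l i b : ℕ} (hl : l.Prime)
    (hη : orderOf η = l ^ i) (hd : ((l ^ i : ℕ) : ℤ) ∣ (b : ℤ) - 1)
    (hb : χ * η = (ψ * η) ^ b) (hψ : ¬ l ^ (i + 1) ∣ orderOf ψ) : ¬ l ∣ orderOf (χ * ψ⁻¹) := by
  have hη1 : η ^ ((b : ℤ) - 1) = 1 := by
    rw [← orderOf_dvd_iff_zpow_eq_one, hη]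
    exact hd
  have hηb : η ^ b = η := by
    have h7 : η ^ ((b : ℤ) - 1) * η = η := by rw [hη1, one_mul]
    rw [← zpow_add_one, sub_add_cancel, zpow_natCast] at h7
    exact h7
  have hχ : χ = ψ ^ b := by
    rw [mul_pow, hηb] at hb
    exact mul_right_cancel hb
  have hq : χ * ψ⁻¹ = ψ ^ ((b : ℤ) - 1) := by
    rw [hχ, zpow_sub_one, zpow_natCast]
  have hN0 : orderOf ψ ≠ 0 := by
    intro h
    rw [h] at hψ
    exact hψ (dvd_zero _)
  obtain ⟨j, N', hN', hN⟩ := Nat.exists_eq_pow_mul_and_not_dvd hN0 l hl.ne_one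
  have hji : j ≤ i := by
    by_contra hlt
    push Not at hlt
    exact hψ (by rw [hN]; exact Dvd.dvd.mul_right (pow_dvd_pow l hlt) N')
  have hfin : (χ * ψ⁻¹) ^ N' = 1 := by
    rw [hq, ← zpow_natCast, ← zpow_mul, ← orderOf_dvd_iff_zpow_eq_one, hN, Nat.cast_mul]
    refine mul_dvd_mul ?_ (dvd_refl _)
    refine dvd_trans ?_ hd
    exact Int.natCast_dvd_natCast.mpr (pow_dvd_pow l hji)
  intro hcon
  exact hN' (dvd_trans hcon (orderOf_dvd_of_pow_eq_one hfin))

theorem twist [Finite C] {χ ψ η : C →* ℂˣ} {l i b : ℕ} (hl : l.Prime) (hη : orderOf η = l ^ i) (V : Subgroup C)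
    (hχV : ∀ g ∈ V, χ g = 1) (hψV : ∀ g ∈ V, ψ g = 1)
    (hηV : ∀ j : ℕ, (∀ g ∈ V, η g ^ j = 1) → l ^ i ∣ j)
    (hb : χ * η = (ψ * η) ^ b) (hψ : ¬ l ^ (i + 1) ∣ orderOf ψ) : ¬ l ∣ orderOf (χ * ψ⁻¹) := by
  have hval : ∀ g ∈ V, η g = η g ^ b := by
    intro g hg
    have h3 : (χ * η) g = ((ψ * η) ^ b) g := DFunLike.congr_fun hb g
    have h4 : (χ * η) g = χ g * η g := rfl
    have h5 : ((ψ * η) ^ b) g = (ψ g * η g) ^ b := rfl
    rw [h4, h5, hχV g hg, one_mul, hψV g hg, one_mul] at h3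
    exact h3
  have hd : ((l ^ i : ℕ) : ℤ) ∣ (b : ℤ) - 1 := by
    rcases Nat.eq_zero_or_pos b with h0 | h1
    · have h2 : l ^ i ∣ 1 := by
        refine hηV 1 ?_
        intro g hg
        have h3 := hval g hg
        rw [h0, pow_zero] at h3
        rw [h3, one_pow]
      have h4 : l ^ i = 1 := Nat.dvd_one.mp h2
      rw [h4]
      simp
    · have h2 : l ^ i ∣ b - 1 := by
        refine hηV (b - 1) ?_
        intro g hg
        have h3 := hval g hg
        have h5 : η g ^ (b - 1) * η g = 1 * η g := by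
          rw [← pow_succ, Nat.sub_add_cancel h1, one_mul]
          exact h3.symm
        exact mul_right_cancel h5
      have h6 : ((b - 1 : ℕ) : ℤ) = (b : ℤ) - 1 := by
        rw [Nat.cast_sub h1]
        simp
      rw [← h6]
      exact Int.natCast_dvd_natCast.mpr h2
  exact A5_abs hl hη hd hb hψ

end Pool.Agent.STr
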