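import Pool.Agent.Lib.MP_1ef7cf_nt_r.Df
import Pool.Agent.Lib.MP_1ef7cf_nt_h.UEx
import Pool.Agent.Lib.MP_1ef7cf_nt_h.Per

/-!
# The base anchor: definitions

`κ` is the quartic residue symbol `(d / ·)₄` on the Gaussian integers prime to `Q`.
-/

set_option autoImplicit false

open Complex

namespace Pool.Agent.STr

open Pool.Agent.STg (gN gOdd Prim)

/-- `κ` is multiplicative, trivial on units, periodic modulo `Q` and compatible with the conjugation -/
structure GC (Q : ℕ) (κ : GaussianInt → GaussianIntˣ) : Prop where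
  mul : ∀ a b : GaussianInt, a ≠ 0 → b ≠ 0 → κ (a * b) = κ a * κ b
  unit : ∀ u : GaussianInt, IsUnit u → κ u = 1
  per : ∀ a b : GaussianInt, IsCoprime a ((Q : ℕ) : GaussianInt) → ((Q : ℕ) : GaussianInt) ∣ a - b → κ a = κ b
  st : ∀ a : GaussianInt, ((κ (star a) : GaussianIntˣ) : GaussianInt) = star ((κ a : GaussianIntˣ) : GaussianInt)

/-- `u` is prime to `Q` and congruent to `1` modulo the prime-to-`p` part of `Q` -/
def Gp (Q p : ℕ) (u : GaussianInt) : Prop :=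
  IsCoprime u ((Q : ℕ) : GaussianInt) ∧ ∀ f : ℕ, f ∣ Q → ¬ p ∣ f → ((f : ℕ) : GaussianInt) ∣ u - 1

/-- `κ` is ramified at all Gaussian primes dividing `Q` -/
def Ram (Q : ℕ) (κ : GaussianInt → GaussianIntˣ) : Prop :=
  ∀ π : GaussianInt, Prime π → π ∣ ((Q : ℕ) : GaussianInt) → ∃ u : GaussianInt,
    IsCoprime u ((Q : ℕ) : GaussianInt) ∧ (∀ f : GaussianInt, f ∣ ((Q : ℕ) : GaussianInt) → ¬ π ∣ f → f ∣ u - 1) ∧
    κ u ≠ 1

/-- `f` is the conductor of `κ`, and it has the same prime divisors as `Q` -/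
structure Cd (Q : ℕ) (κ : GaussianInt → GaussianIntˣ) (f : GaussianInt) : Prop where
  ne : f ≠ 0
  nu : ¬ IsUnit f
  dvd : f ∣ ((Q : ℕ) : GaussianInt)
  pr : ∀ π : GaussianInt, Prime π → π ∣ ((Q : ℕ) : GaussianInt) → π ∣ f
  per : ∀ u u' : GaussianInt, IsCoprime u ((Q : ℕ) : GaussianInt) → IsCoprime u' ((Q : ℕ) : GaussianInt) →
    f ∣ u - u' → κ u = κ u'
  ram : ∀ π : GaussianInt, Prime π → π ∣ f → ∃ u : GaussianInt, IsCoprime u ((Q : ℕ) : GaussianInt) ∧
    f ∣ π * (u - 1) ∧ κ u ≠ 1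

open Classical in
/-- `κ` with the value `0` at the elements which are not prime to `Q` -/
noncomputable def ch (Q : ℕ) (κ : GaussianInt → GaussianIntˣ) (a : GaussianInt) : ℂ :=
  if IsCoprime a ((Q : ℕ) : GaussianInt) then (((κ a : GaussianIntˣ) : GaussianInt) : ℂ) else 0

/-- `exp (2 π i Re z)` -/
noncomputable def pe (z : ℂ) : ℂ := Complex.exp (2 * Real.pi * I * (z.re : ℂ))

/-- the product of the theta kernels -/
noncomputable def EK (z : ℂ) (t : ℝ) : ℝ :=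
  HurwitzZeta.evenKernel (z.re : UnitAddCircle) t * HurwitzZeta.evenKernel (z.im : UnitAddCircle) t

/-- the product of the dual theta kernels -/
noncomputable def CK (z : ℂ) (t : ℝ) : ℝ :=
  HurwitzZeta.cosKernel (z.re : UnitAddCircle) t * HurwitzZeta.cosKernel (z.im : UnitAddCircle) t

/-- the theta series of `κ` -/
noncomputable def Th (Q : ℕ) (κ : GaussianInt → GaussianIntˣ) (f : GaussianInt) (t : ℝ) : ℂ :=
  ∑' u : GaussianInt, ch Q κ u * ((Real.exp (-Real.pi * (‖(u : ℂ)‖ ^ 2 / ‖(f : ℂ)‖) * t) : ℝ) : ℂ)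

lemma ch_of {Q : ℕ} {κ : GaussianInt → GaussianIntˣ} {a : GaussianInt} (h : IsCoprime a ((Q : ℕ) : GaussianInt)) :
    ch Q κ a = (((κ a : GaussianIntˣ) : GaussianInt) : ℂ) := by
  unfold ch
  rw [if_pos h]

lemma ch_not {Q : ℕ} {κ : GaussianInt → GaussianIntˣ} {a : GaussianInt} (h : ¬ IsCoprime a ((Q : ℕ) : GaussianInt)) :
    ch Q κ a = 0 := by
  unfold ch
  rw [if_neg h]

end Pool.Agent.STr
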