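import Pool.Agent.Lib.MP_1ef7cf_nt_r.Mg.G007
import Pool.Agent.Lib.MP_1ef7cf_nt_d.CLA
import Pool.Agent.Lib.MP_1ef7cf_nt_h.F08

/-!
# TASK Bb8: a prime of degree one which splits in `H` and not in `H(√a)`

PROOF. `F = H` (a number field), `E` = the field `H(√a)` as extension of `H` (`IntermediateField.adjoin H {se a} : IntermediateField H ℝ`, a number field), quadratic over `H` since `se a ∉ H` and `(se a) ^ 2 = a`, Galois. `exists_good_prime` (D1) with the base field `ℚ` (as its `K`), `F`, one extension `E`: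
`1 / 2 < 1`; as finite set take the primes of `H` over the primes in `B`, over those containing `2 d`, and over those dividing `m`. We get `P` (a prime of `H`) with `pn P = pn (und ℚ P)`, and a prime `Q` of `E` over `P` where the automorphism `1` is not a Frobenius element. `q = und K P`; `pn (und ℚ P) ≤ pn q ≤ pn P`
(`pn_le`-like), and `pn (und ℚ P)` is a prime number (`und ℚ P` is a prime of `ℤ`; its norm is prime), so `pn q = pn P` is prime. As `pn P = pn q` the automorphism `1` of `H` is a Frobenius element at `P` (`isFrob_one_of_pn_eq`), and `q` is unramified in `H` (`q ∤ m`), so `Art [q] = 1` (`isFrob_unique`, `IsRCF.frobP`; cf.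
`fix_M` in E6b) and `[q] = 1`. Suppose `chiP a q = 1`: `a ≡ b ^ 2 mod q`, `b ∈ 𝓞 K`. Let `r ∈ 𝓞 E` be the element `√a`; `(r - b) (r + b) ∈ Q`, so `r ≡ ± b mod Q`. Let `σ` be a Frobenius element at `Q` over `P` (`exists_isFrob`): `σ r ≡ r ^ (pn P) ≡ (± b) ^ (pn P) ≡ ± b ≡ r mod Q` (`b ^ (pn q) ≡ b mod q`). `σ r = ± r`; if `σ r = - r`
then `2 r ∈ Q`, so `4 a ∈ q`, `2 d ∈ q`, excluded. So `σ r = r`, `σ = 1`, contradiction.
-/

set_option autoImplicit false

open NumberField IsDedekindDomain nonZeroDivisors IntermediateField Filter Topology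

namespace Pool.Agent.STr

open Pool.Agent.ST
open Pool.Agent.STh.F (FD se chiP)

variable {K : Type*} [Field K] [NumberField K] [Algebra K ℝ] {σ₂ : K →+* ℝ} {m : Ideal (𝓞 K)} {d : ℕ} {a : 𝓞 K}


/-- the norm of a prime of the ring of integers of the rational numbers is a prime number -/
theorem Bb8_pn_rat (v : PrI ℚ) : (pn v).Prime := by
  have hmem : ((pn v : ℕ) : 𝓞 ℚ) ∈ v.asIdeal := Ideal.absNorm_mem v.asIdeal
  have hpr := v.isPrime
  have key : ∀ n : ℕ, n ≠ 0 → ((n : ℕ) : 𝓞 ℚ) ∈ v.asIdeal →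
      ∃ p : ℕ, p.Prime ∧ ((p : ℕ) : 𝓞 ℚ) ∈ v.asIdeal := by
    intro n
    induction n using Nat.recOnMul with
    | zero => intro h; exact absurd rfl h
    | one =>
      intro _ h
      exact absurd ((Ideal.eq_top_iff_one _).mpr (by simpa using h)) hpr.ne_top
    | prime p hp => intro _ h; exact ⟨p, hp, h⟩
    | mul x y hx hy =>
      intro h0 h
      rw [Nat.cast_mul] at h
      rcases hpr.mem_or_mem h with h1 | h1
      · exact hx (fun h2 => h0 (by rw [h2, Nat.zero_mul])) h1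
      · exact hy (fun h2 => h0 (by rw [h2, Nat.mul_zero])) h1
  obtain ⟨p, hp, hpm⟩ := key (pn v) (by have := two_le_pn v; omega) hmem
  have h1 := Ideal.absNorm_dvd_norm_of_mem hpm
  rw [Algebra.norm_natCast, NumberField.RingOfIntegers.rank, Module.finrank_self, pow_one] at h1
  have h2 : pn v ∣ p := Int.natCast_dvd_natCast.mp h1
  rcases (Nat.dvd_prime hp).mp h2 with h3 | h3
  · have := two_le_pn v
    omega
  · rw [h3]; exact hp

/-- the degree two extension -/
theorem Bb8_finrank (D : FD σ₂ d a) {H : IntermediateField K ℝ} (hse : se a ∉ H) :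
    Module.finrank H (H⟮se a⟯ : IntermediateField H ℝ) = 2 := by
  have hr2 : se a ^ 2 = algebraMap K ℝ (a : K) := D.se_sq
  set c : H := algebraMap K H (a : K) with hc
  have hcR : (algebraMap H ℝ) c = algebraMap K ℝ (a : K) := rfl
  set f : Polynomial H := Polynomial.X ^ 2 - Polynomial.C c with hf
  have hfm : f.Monic := Polynomial.monic_X_pow_sub_C c (by norm_num)
  have hfd : f.natDegree = 2 := Polynomial.natDegree_X_pow_sub_C
  have hroot : Polynomial.aeval (se a) f = 0 := by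
    rw [hf, map_sub, map_pow, Polynomial.aeval_X, Polynomial.aeval_C, hr2, hcR, sub_self]
  have hint : IsIntegral H (se a) := ⟨f, hfm, by
    rw [← Polynomial.aeval_def]; exact hroot⟩
  rw [IntermediateField.adjoin.finrank hint]
  have hle : (minpoly H (se a)).natDegree ≤ 2 := by
    rw [← hfd]
    exact Polynomial.natDegree_le_of_dvd (minpoly.dvd H _ hroot) hfm.ne_zero
  have hge : 2 ≤ (minpoly H (se a)).natDegree := by
    rw [minpoly.two_le_natDegree_iff hint]
    rintro ⟨x, hx⟩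
    apply hse
    rw [← hx]
    exact x.2
  omega

theorem Bb8_fermat {L : Type*} [Field L] [NumberField L] (v : PrI L) (x : 𝓞 L) :
    x - x ^ pn v ∈ v.asIdeal := by
  have hfin : Finite (𝓞 L ⧸ v.asIdeal) := Ideal.finiteQuotientOfFreeOfNeBot v.asIdeal v.ne_bot
  have hmax : v.asIdeal.IsMaximal := v.isMaximal
  let _ : Field (𝓞 L ⧸ v.asIdeal) := Ideal.Quotient.field v.asIdeal
  have _ : Fintype (𝓞 L ⧸ v.asIdeal) := Fintype.ofFinite _
  have h1 : pn v = Fintype.card (𝓞 L ⧸ v.asIdeal) := by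
    unfold pn
    rw [Ideal.absNorm_apply, Submodule.cardQuot_apply, Nat.card_eq_fintype_card]
  rw [← Ideal.Quotient.eq, map_pow, h1, FiniteField.pow_card]

theorem Bb8_core (D : FD σ₂ d a) {H : IntermediateField K ℝ} [FiniteDimensional K H] [NumberField H]
    [NumberField (H⟮se a⟯ : IntermediateField H ℝ)] [IsGalois H (H⟮se a⟯ : IntermediateField H ℝ)]
    (Q : PrI (H⟮se a⟯ : IntermediateField H ℝ)) {b : 𝓞 K}
    (hb : a - b * b ∈ (und K (und H Q)).asIdeal) (hpn : pn (und H Q) = pn (und K (und H Q)))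
    (h2d : ((2 * d : ℕ) : 𝓞 K) ∉ (und K (und H Q)).asIdeal) :
    IsFrob H Q (1 : (H⟮se a⟯ : IntermediateField H ℝ) ≃ₐ[H] (H⟮se a⟯ : IntermediateField H ℝ)) := by
  classical
  have hr2 : se a ^ 2 = algebraMap K ℝ (a : K) := D.se_sq
  have hmem : se a ∈ (H⟮se a⟯ : IntermediateField H ℝ) := mem_adjoin_simple_self H (se a)
  -- transfer of membership
  have htr : ∀ x : 𝓞 K, x ∈ (und K (und H Q)).asIdeal →
      algebraMap (𝓞 H) (𝓞 (H⟮se a⟯ : IntermediateField H ℝ)) (algebraMap (𝓞 K) (𝓞 H) x) ∈ Q.asIdeal :=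
    fun x hx => hx
  have htr' : ∀ x : 𝓞 K, 
      algebraMap (𝓞 H) (𝓞 (H⟮se a⟯ : IntermediateField H ℝ)) (algebraMap (𝓞 K) (𝓞 H) x) ∈ Q.asIdeal →
      x ∈ (und K (und H Q)).asIdeal :=
    fun x hx => hx
  set t : 𝓞 K →+* 𝓞 (H⟮se a⟯ : IntermediateField H ℝ) :=
    (algebraMap (𝓞 H) (𝓞 (H⟮se a⟯ : IntermediateField H ℝ))).comp (algebraMap (𝓞 K) (𝓞 H)) with ht
  have htval : ∀ x : 𝓞 K, ((((t x : 𝓞 (H⟮se a⟯ : IntermediateField H ℝ)) : (H⟮se a⟯ : IntermediateField H ℝ)) : ℝ)) =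
      algebraMap K ℝ (x : K) := fun x => rfl
  have hsq : (⟨se a, hmem⟩ : (H⟮se a⟯ : IntermediateField H ℝ)) ^ 2 =
      ((t a : 𝓞 (H⟮se a⟯ : IntermediateField H ℝ)) : (H⟮se a⟯ : IntermediateField H ℝ)) := Subtype.ext hr2
  have hint : IsIntegral ℤ (⟨se a, hmem⟩ : (H⟮se a⟯ : IntermediateField H ℝ)) := by
    apply IsIntegral.of_pow (n := 2) (by norm_num)
    rw [hsq]
    exact RingOfIntegers.isIntegral_coe _
  obtain ⟨r, hr⟩ : ∃ r : 𝓞 (H⟮se a⟯ : IntermediateField H ℝ),
      (r : (H⟮se a⟯ : IntermediateField H ℝ)) = ⟨se a, hmem⟩ := ⟨⟨⟨se a, hmem⟩, hint⟩, rfl⟩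
  have hrr : r ^ 2 = t a := by
    apply RingOfIntegers.coe_injective
    rw [map_pow]
    exact (congrArg (· ^ 2) hr).trans hsq
  have hQp := Q.isPrime
  -- r is congruent to an element b' of K modulo Q
  obtain ⟨b', hb'⟩ : ∃ b' : 𝓞 K, r - t b' ∈ Q.asIdeal := by
    have h1 : (r - t b) * (r - t (-b)) ∈ Q.asIdeal := by
      have h2 : (r - t b) * (r - t (-b)) = t (a - b * b) := by
        rw [map_neg, map_sub, map_mul, ← hrr]
        ring
      rw [h2]
      exact htr _ hb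
    rcases hQp.mem_or_mem h1 with h2 | h2
    · exact ⟨b, h2⟩
    · exact ⟨-b, h2⟩
  obtain ⟨σ, hσ⟩ := exists_isFrob (K := H) Q
  -- σ r is congruent to r
  have hcong : σ • r - r ∈ Q.asIdeal := by
    have h1 := hσ r
    have h2 : r ^ pn (und H Q) - (t b') ^ pn (und H Q) ∈ Q.asIdeal :=
      Ideal.mem_of_dvd _ (sub_dvd_pow_sub_pow _ _ _) hb'
    have h3 : t b' - (t b') ^ pn (und H Q) ∈ Q.asIdeal := by
      rw [← map_pow, ← map_sub, hpn]
      exact htr _ (Bb8_fermat (und K (und H Q)) b')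
    have h4 : σ • r - r = (σ • r - r ^ pn (und H Q)) + (r ^ pn (und H Q) - (t b') ^ pn (und H Q)) -
        (t b' - (t b') ^ pn (und H Q)) - (r - t b') := by ring
    rw [h4]
    exact Q.asIdeal.sub_mem (Q.asIdeal.sub_mem (Q.asIdeal.add_mem h1 h2) h3) hb'
  have hsr : (σ • r) ^ 2 = r ^ 2 := by
    have h1 : (σ • r) ^ 2 = σ • (r ^ 2) := by rw [smul_pow']
    rw [h1, hrr]
    apply RingOfIntegers.coe_injective
    rw [coe_smul']
    exact σ.commutes ((algebraMap (𝓞 K) (𝓞 H) a : 𝓞 H) : H)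
  have hfix : σ • r = r := by
    rcases sq_eq_sq_iff_eq_or_eq_neg.1 hsr with h | h
    · exact h
    · exfalso
      rw [h] at hcong
      apply h2d
      apply htr'
      have h1 : t ((2 * d : ℕ) : 𝓞 K) = (-r - r) * (-r * t a) := by
        have h2 : t ((2 * d : ℕ) : 𝓞 K) = 2 * t a ^ 2 := by
          have h3 : ((2 * d : ℕ) : 𝓞 K) = 2 * a ^ 2 := by rw [D.sq]; push_cast; ring
          rw [h3, map_mul, map_pow, map_ofNat]
        rw [h2]
        calc 2 * t a ^ 2 = 2 * t a * t a := by ring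
          _ = 2 * r ^ 2 * t a := by rw [hrr]
          _ = (-r - r) * (-r * t a) := by ring
      have h4 : (-r - r) * (-r * t a) ∈ Q.asIdeal := Q.asIdeal.mul_mem_right _ hcong
      rw [← h1] at h4
      exact h4
  have hσ1 : σ = 1 := by
    have h1 : σ ⟨se a, hmem⟩ = ⟨se a, hmem⟩ := by
      rw [← hr]
      exact congrArg (algebraMap (𝓞 (H⟮se a⟯ : IntermediateField H ℝ)) (H⟮se a⟯ : IntermediateField H ℝ)) hfix
    have h2 : (σ : (H⟮se a⟯ : IntermediateField H ℝ) →ₐ[H] (H⟮se a⟯ : IntermediateField H ℝ)) =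
        AlgHom.id H _ := by
      apply IntermediateField.adjoin_algHom_ext
      intro x hx
      rw [Set.mem_singleton_iff] at hx
      subst hx
      exact h1
    ext x
    exact congrArg _ (DFunLike.congr_fun h2 x)
  rw [← hσ1]
  exact hσ

theorem exists_bad_prime (D : FD σ₂ d a) (hm : m ≠ ⊥) {H : IntermediateField K ℝ}
    {Art : RayClassGroup σ₂ m ≃* (H ≃ₐ[K] H)} (hr : IsRayClassField σ₂ m H Art) (hse : se a ∉ H) {B : Set (PrI K)}
    (hB : B.Finite) :
    ∃ (q : PrI K) (hq : ¬ q.asIdeal ∣ m), q ∉ B ∧ (pn q).Prime ∧ cls σ₂ m (prJ m q hq) = 1 ∧ chiP a q.asIdeal = -1 := by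
  classical
  have := hr.finite
  have := hr.galois
  have := numberField_of_fd H
  have hfr := Bb8_finrank D hse
  have hquad : Algebra.IsQuadraticExtension H (H⟮se a⟯ : IntermediateField H ℝ) := ⟨hfr⟩
  have : FiniteDimensional H (H⟮se a⟯ : IntermediateField H ℝ) :=
    Module.finite_of_finrank_pos (by rw [hfr]; norm_num)
  have : NumberField (H⟮se a⟯ : IntermediateField H ℝ) := NumberField.of_module_finite H _
  have : IsGalois H (H⟮se a⟯ : IntermediateField H ℝ) := inferInstance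
  have hd0 : d ≠ 0 := by
    rintro rfl
    exact D.nsq ⟨0, rfl⟩
  have h2d0 : Ideal.span {((2 * d : ℕ) : 𝓞 K)} ≠ ⊥ := by
    rw [Ne, Ideal.span_singleton_eq_bot]
    exact_mod_cast (by omega : 2 * d ≠ 0)
  have hfinS : (B ∪ ({v : PrI K | v.asIdeal ∣ Ideal.span {((2 * d : ℕ) : 𝓞 K)}} ∪
      {v : PrI K | v.asIdeal ∣ m})).Finite := hB.union ((finite_dvd h2d0).union (finite_dvd hm))
  have hfinB : {P : PrI H | und K P ∈ (B ∪ ({v : PrI K | v.asIdeal ∣ Ideal.span {((2 * d : ℕ) : 𝓞 K)}} ∪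
      {v : PrI K | v.asIdeal ∣ m}))}.Finite := Pool.Agent.STc.finite_over_set hfinS
  obtain ⟨P, hPB, hpn, hex⟩ := exists_good_prime (K := ℚ) (F := H) ({()} : Finset Unit)
    (fun _ => (H⟮se a⟯ : IntermediateField H ℝ)) (by
      rw [Finset.sum_singleton, hfr]
      norm_num) _ hfinB
  obtain ⟨Q, hQP, -, hQ⟩ := hex () (Finset.mem_singleton_self _)
  have hPB' : und K P ∉ B ∧ ¬ (und K P).asIdeal ∣ Ideal.span {((2 * d : ℕ) : 𝓞 K)} ∧ ¬ (und K P).asIdeal ∣ m := by
    refine ⟨fun h => hPB (Or.inl h), fun h => hPB (Or.inr (Or.inl h)), fun h => hPB (Or.inr (Or.inr h))⟩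
  obtain ⟨h1, h2, h3⟩ := hPB'
  have hpn2 : pn P = pn (und K P) := by
    apply le_antisymm
    · rw [hpn, ← und_und (K := ℚ) (E₁ := K) P]
      exact pn_und_le ℚ (und K P)
    · exact pn_und_le K P
  refine ⟨und K P, h3, h1, ?_, ?_, ?_⟩
  · rw [← hpn2, hpn]
    exact Bb8_pn_rat _
  · have hF1 : IsFrob K P (1 : H ≃ₐ[K] H) := isFrob_one_of_pn_eq hpn2
    obtain ⟨hun, hF2⟩ := hr.isRCF.frobP P (Set.notMem_empty _) (prJ m (und K P) h3) (by rw [coe_prJ])
    have h5 := isFrob_unique hF1 hF2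
    exact (map_eq_one_iff Art Art.injective).mp h5.symm
  · have hns : ¬ IsSquare (Ideal.Quotient.mk (und K P).asIdeal a) := by
      rintro ⟨c, hc⟩
      obtain ⟨b, rfl⟩ := Ideal.Quotient.mk_surjective c
      rw [← map_mul] at hc
      have hb := Ideal.Quotient.eq.mp hc
      apply hQ
      subst hQP
      exact Bb8_core D Q hb hpn2 (fun h => h2 (by
        rw [Ideal.dvd_span_singleton]
        exact h))
    unfold chiP
    rw [if_neg hns]

end Pool.Agent.STr
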