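import Pool.Agent.Lib.MP_1ef7cf_nt_f.GC
import Pool.Agent.Lib.MP_1ef7cf_nt_e.INR
import Pool.Agent.Lib.MP_1ef7cf_nt_h.F08

/-!
# Rationality implies reciprocity: definitions

`Lz σ₂ m A = -2 ζ'(0, A)`, `ev σ₂ m A = exp (Lz σ₂ m A)`. A level `Lv σ₂ m`: the ray class field, the Artin map
and an isomorphism `θ` with `θ(B) ε(A) = ε(A B)` (not assumed to be the Artin map). `Hy σ₂ n`: there is a level for
every nonzero multiple of `n`. `InX f χ`: the `χ`-component of the function `f : C → ℝ` (with values in the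
`ℚ`-vector space `ℝ`) is not zero.
-/

set_option autoImplicit false

open NumberField IsDedekindDomain nonZeroDivisors IntermediateField

namespace Pool.Agent.STr

open Pool.Agent.ST
open Pool.Agent.STc (IsInt rd IsUn)

section group

variable {C : Type*} [CommGroup C]

/-- the `χ`-component of the function `c ∘ f` -/
noncomputable def SS (c : ℝ →ₗ[ℚ] ℚ) (f : C → ℝ) (χ : C →* ℂˣ) : ℂ :=
  ∑ᶠ B : C, (((χ B)⁻¹ : ℂˣ) : ℂ) * ((c (f B) : ℚ) : ℂ)

/-- the `χ`-component of `f` is not zero -/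
def InX (f : C → ℝ) (χ : C →* ℂˣ) : Prop := ∃ c : ℝ →ₗ[ℚ] ℚ, SS c f χ ≠ 0

end group

section field

variable {K : Type*} [Field K] [NumberField K]

/-- `log ε(A) = -2 ζ'(0, A)` -/
noncomputable def Lz (σ₂ : K →+* ℝ) (m : Ideal (𝓞 K)) (A : RayClassGroup σ₂ m) : ℝ :=
  -2 * zd σ₂ m A

/-- `ε(A) = exp (-2 ζ'(0, A))` -/
noncomputable def ev (σ₂ : K →+* ℝ) (m : Ideal (𝓞 K)) (A : RayClassGroup σ₂ m) : ℝ :=
  Real.exp (Lz σ₂ m A)

/-- the prime divisors of `m'` which do not divide `m` -/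
def Nw (m m' : Ideal (𝓞 K)) : Set (PrI K) := {q | q.asIdeal ∣ m' ∧ ¬ q.asIdeal ∣ m}

open Classical in
/-- the value of a character of the ray class group at a prime, `0` if the prime divides `m` -/
noncomputable def chQ {σ₂ : K →+* ℝ} {m : Ideal (𝓞 K)} (χ : RayClassGroup σ₂ m →* ℂˣ) (q : PrI K) : ℂ :=
  if h : ¬ q.asIdeal ∣ m then ((χ (cls σ₂ m (prJ m q h)) : ℂˣ) : ℂ) else 0

/-- the product of the Euler factors at the primes which divide `m'` and not `m` -/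
noncomputable def EE {σ₂ : K →+* ℝ} {m : Ideal (𝓞 K)} (χ : RayClassGroup σ₂ m →* ℂˣ) (m' : Ideal (𝓞 K)) : ℂ :=
  ∏ᶠ q ∈ Nw m m', (1 - (chQ χ q)⁻¹)

/-- the sum of `log ε_{m'}` over the classes above a class modulo `m` -/
noncomputable def UU {σ₂ : K →+* ℝ} {m m' : Ideal (𝓞 K)} (hle : m' ≤ m) (A : RayClassGroup σ₂ m) : ℝ :=
  ∑ᶠ A' ∈ {A' : RayClassGroup σ₂ m' | pr σ₂ hle A' = A}, Lz σ₂ m' A'

variable [Algebra K ℝ]

/-- a level: the ray class field of modulus `m ∞₂`, the Artin map, and an isomorphism `θ` with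
`θ(B) ε(A) = ε(A B)` -/
structure Lv (σ₂ : K →+* ℝ) (m : Ideal (𝓞 K)) where
  H : IntermediateField K ℝ
  Art : RayClassGroup σ₂ m ≃* (H ≃ₐ[K] H)
  θ : RayClassGroup σ₂ m ≃* (H ≃ₐ[K] H)
  rcf : IsRayClassField σ₂ m H Art
  mem : ∀ A, ev σ₂ m A ∈ H
  eq : ∀ A B, act (θ B) (ev σ₂ m A) = ev σ₂ m (A * B)

/-- the automorphism `θ⁻¹ Art` of the ray class group -/
noncomputable def Lv.β {σ₂ : K →+* ℝ} {m : Ideal (𝓞 K)} (L : Lv σ₂ m) :
    RayClassGroup σ₂ m ≃* RayClassGroup σ₂ m := L.Art.trans L.θ.symm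

/-- the hypotheses -/
structure Hy (σ₂ : K →+* ℝ) (n : Ideal (𝓞 K)) : Prop where
  h2 : Module.finrank ℚ K = 2
  hσ : σ₂ ≠ sg1 K
  hn1 : n ≠ ⊤
  lv : ∀ m : Ideal (𝓞 K), m ≠ ⊥ → n ∣ m → Nonempty (Lv σ₂ m)

/-- the logarithms of the units of `H` all of whose conjugates over `K` are positive -/
noncomputable def Lam (H : IntermediateField K ℝ) : AddSubgroup ℝ where
  carrier := {x | IsUn H (Real.exp x) ∧ ∀ g : H ≃ₐ[K] H, 0 < act g (Real.exp x)}
  zero_mem' := by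
    rw [Set.mem_setOf_eq, Real.exp_zero]
    exact ⟨⟨IsInt.one, by simpa using (IsInt.one : IsInt H 1), one_ne_zero⟩, fun g => by
      rw [act_one_right]; exact one_pos⟩
  add_mem' := by
    rintro x y ⟨hx, hx'⟩ ⟨hy, hy'⟩
    rw [Set.mem_setOf_eq, Real.exp_add]
    refine ⟨⟨hx.int.mul hy.int, ?_, mul_ne_zero hx.ne hy.ne⟩, fun g => ?_⟩
    · rw [mul_inv]; exact hx.inv.mul hy.inv
    · rw [act_mul _ hx.int.1 hy.int.1]; exact mul_pos (hx' g) (hy' g)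
  neg_mem' := by
    rintro x ⟨hx, hx'⟩
    rw [Set.mem_setOf_eq, Real.exp_neg]
    refine ⟨⟨hx.inv, by rw [inv_inv]; exact hx.int, inv_ne_zero hx.ne⟩, fun g => ?_⟩
    rw [act_inv _ hx.int.1]; exact inv_pos.2 (hx' g)

/-- `ω` is the norm type character of the ray class group attached to the Dirichlet character `ω₀` modulo `N` -/
def NT {σ₂ : K →+* ℝ} {M : Ideal (𝓞 K)} (N : ℕ) (ω₀ : (ZMod N)ˣ →* ℂˣ) (ω : RayClassGroup σ₂ M →* ℂˣ) : Prop :=
  ∀ (I : Ideal (𝓞 K)) (J : primeTo (K := K) M) (h : (Ideal.absNorm I).Coprime N),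
    ((J : (FI K)ˣ) : FI K) = (I : FI K) → ω (cls σ₂ M J) = ω₀ (ZMod.unitOfCoprime _ h)

/-- `cos (2 π / N)` -/
noncomputable def cN (N : ℕ) : ℝ := Real.cos (2 * Real.pi / N)

end field

end Pool.Agent.STr
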