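import Pool.Agent.Lib.MP_1ef7cf_nt_r.Mg.G024
import Pool.Agent.Lib.MP_1ef7cf_nt_r.Mg.G007
import Pool.Agent.Lib.MP_1ef7cf_nt_r.Mg.G023

/-!
# TASK E5: the prime `P` of `M1`

PROOF. Let `F = M1 M e l` (a number field, finite over `K`), it contains a primitive `l`-th root of unity `ζ` and `w` for `w ∈ W`. Apply `exists_good_prime` (`D1`) to the base `F` and
the finite family of Galois extensions of `F` inside `ℂ` (as types `IntermediateField F ℂ`; index type `Option {w // w ∈ W}`):
`E none = adjoin F (H₀ as a subset of ℂ)` (the compositum of `F` and `H₀`; finite Galois over `F` because `H₀ / K` is; its degree is `≥ 2` because `H₀` is not contained in `F`), and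
`E (some w) = adjoin F {y_w}`, `y_w ^ l = w` (Galois since `ζ ∈ F`; degree `l` by `kummer_degree`, since `w` is not an `l`-th power in `F`). The sum of the inverse degrees is
`≤ 1 / 2 + |W| / l < 1`. The finite set to be avoided: the primes of `F` over `B`, over `l`, over the primes dividing `m`, those containing some `w ∈ W`, and those over the (finitely many)
primes of `K` which are ramified in `E none` or `H`. We get `P` with `pn P = pn (und K P)` and primes `Q_i` of `E i` over `P`, unramified, with nontrivial Frobenius.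
(1) `i = some w`: if `(w mod P) ^ ((pn P - 1) / l) = 1` then the Frobenius (`exists_isFrob`) at `Q` is trivial by `kummer_frob` (`l ∣ pn P - 1` because `ζ` has order `l` modulo `P`),
contradiction.
(2) `i = none`: let `q = und K P`, suppose `act (Art [q]) x = x` for all `x ∈ H₀`. Let `σ ≠ 1` be the Frobenius of `Q` over `P`: `σ z ≡ z ^ (pn P) mod Q`, `pn P = pn q`. For `x ∈ 𝓞 H₀`:
`Art [q] x ≡ x ^ (pn q)` modulo every prime of `H` over `q` (`IsRCF.frobP`), hence `σ x - x = σ x - Art[q] x ∈ Q` for all `x ∈ 𝓞 H₀`; the restriction of `σ` to `H₀`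
(an element of `Gal(H₀/K)`) lies in the inertia group of `Q ∩ H₀`, which is trivial since `q` is unramified in `H ⊇ H₀`. So `σ` is trivial on `H₀` and on `F`: `σ = 1`,
contradiction. (Templates: `frob_transfer` in `MP_1ef7cf_nt_d/TR.lean`, `frob_real` in CLA.)
-/

set_option autoImplicit false
set_option linter.style.haveILetI false

open NumberField IsDedekindDomain nonZeroDivisors IntermediateField

namespace Pool.Agent.STr

open Pool.Agent.ST
open Pool.Agent.STc (IsInt rd IsUn)
open Pool.Agent.STd (jR fixL KZ mem_fixL)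

section aux

open Polynomial

/-- `l` divides the number of nonzero residues modulo `P` -/
theorem E5_dvd {F : Type*} [Field F] [NumberField F] {l : ℕ} (hl : l.Prime) {ζ : F}
    (hζ : IsPrimitiveRoot ζ l) {P : PrI F} (hlP : (l : 𝓞 F) ∉ P.asIdeal) : l ∣ pn P - 1 := by
  have hint : IsIntegral ℤ ζ :=
    IsIntegral.of_pow (n := l) hl.pos (by rw [hζ.pow_eq_one]; exact isIntegral_one)
  obtain ⟨z, hz⟩ : ∃ z : 𝓞 F, algebraMap (𝓞 F) F z = ζ := ⟨⟨ζ, hint⟩, rfl⟩
  have hz1 : z ^ l = 1 := by
    apply RingOfIntegers.coe_injective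
    rw [map_pow, hz, hζ.pow_eq_one, map_one]
  have hzne : z ≠ 1 := by
    rintro rfl
    rw [map_one] at hz
    exact hζ.ne_one hl.one_lt hz.symm
  have hsum : ∑ i ∈ Finset.range l, z ^ i = 0 := by
    have h1 := geom_sum_mul z l
    rw [hz1, sub_self] at h1
    rcases mul_eq_zero.1 h1 with h2 | h2
    · exact h2
    · exact absurd (sub_eq_zero.1 h2) hzne
  have hzP : Ideal.Quotient.mk P.asIdeal z ≠ 1 := by
    intro h
    apply hlP
    rw [← Ideal.Quotient.eq_zero_iff_mem, map_natCast]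
    have h2 := congrArg (Ideal.Quotient.mk P.asIdeal) hsum
    rw [map_sum, map_zero] at h2
    simp only [map_pow, h, one_pow, Finset.sum_const, Finset.card_range, nsmul_eq_mul, mul_one] at h2
    exact h2
  haveI : Finite (𝓞 F ⧸ P.asIdeal) := Ideal.finiteQuotientOfFreeOfNeBot P.asIdeal P.ne_bot
  haveI : P.asIdeal.IsMaximal := P.isMaximal
  letI : Field (𝓞 F ⧸ P.asIdeal) := Ideal.Quotient.field P.asIdeal
  haveI : Fintype (𝓞 F ⧸ P.asIdeal) := Fintype.ofFinite _
  have h1 : pn P = Fintype.card (𝓞 F ⧸ P.asIdeal) := by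
    unfold pn
    rw [Ideal.absNorm_apply, Submodule.cardQuot_apply, Nat.card_eq_fintype_card]
  have h2 : (Ideal.Quotient.mk P.asIdeal z) ^ l = 1 := by rw [← map_pow, hz1, map_one]
  haveI : Fact l.Prime := ⟨hl⟩
  have h3 : orderOf (Ideal.Quotient.mk P.asIdeal z) = l := orderOf_eq_prime h2 hzP
  have h4 : Ideal.Quotient.mk P.asIdeal z ≠ 0 := by
    intro h
    rw [h, zero_pow hl.ne_zero] at h2
    exact zero_ne_one h2
  rw [h1, ← h3]
  exact orderOf_dvd_of_pow_eq_one (FiniteField.pow_card_sub_one_eq_one _ h4)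

/-- transfer of Frobenius elements (the extension `L / K` need not be Galois) -/
theorem E5_transfer {K : Type*} [Field K] [NumberField K] [Algebra K ℝ] {σ₂ : K →+* ℝ}
    {m : Ideal (𝓞 K)} {H : IntermediateField K ℝ}
    {Art : RayClassGroup σ₂ m ≃* (H ≃ₐ[K] H)} (hr : IsRayClassField σ₂ m H Art)
    {F : IntermediateField K ℝ} [Normal K F] (hFH : F ≤ H)
    {L : Type*} [Field L] [NumberField L] [Algebra K L] (j : F →ₐ[K] L)
    {P : PrI L} {σ : L ≃ₐ[K] L} (hσ : IsFrob K P σ) (hq : ¬ (und K P).asIdeal ∣ m) (x : F) :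
    σ (j x) = j (res hFH (Art (cls σ₂ m (prJ m (und K P) hq))) x) := by
  have := hr.finite
  have := hr.galois
  have : FiniteDimensional K F :=
    FiniteDimensional.of_injective (inclusion hFH).toLinearMap (inclusion hFH).injective
  have := numberField_of_fd F
  have := numberField_of_fd H
  let _ : Algebra F L := j.toRingHom.toAlgebra
  have : IsScalarTower K F L := IsScalarTower.of_algebraMap_eq (fun x => (j.commutes x).symm)
  have h1 : IsFrob K (und F P) (σ.restrictNormal F) :=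
    isFrob_und (fun x => σ.restrictNormal_commutes F x) hσ
  obtain ⟨P', hP', hun, hF⟩ := isFrob_res' hFH (und F P)
  have hund : und K P' = und K P := by rw [hP', und_und]
  obtain ⟨h2, h3⟩ := hr.isRCF.frobP P' (Set.notMem_empty _) (prJ m (und K P) hq)
    (by rw [coe_prJ, hund])
  have := hun h2
  have h4 := isFrob_unique h1 (hF _ h3)
  have h5 := σ.restrictNormal_commutes F x
  rw [h4] at h5
  exact h5.symm

/-- the compositum with a Galois extension of the base -/
theorem E5_ext {K : Type*} [Field K] [NumberField K] [Algebra K ℂ] (F G : IntermediateField K ℂ)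
    [FiniteDimensional K F] [IsGalois K F] [FiniteDimensional K G] [IsGalois K G] :
    FiniteDimensional F (extendScalars (le_sup_left : F ≤ F ⊔ G)) ∧
      IsGalois F (extendScalars (le_sup_left : F ≤ F ⊔ G)) := by
  have hfd : FiniteDimensional K (F ⊔ G : IntermediateField K ℂ) :=
    IntermediateField.finiteDimensional_sup _ _
  have hgal : IsGalois K (F ⊔ G : IntermediateField K ℂ) := by
    have : Normal K (F ⊔ G : IntermediateField K ℂ) := inferInstance
    exact ⟨⟩
  let _ : Algebra F (F ⊔ G : IntermediateField K ℂ) :=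
    (inclusion (le_sup_left : F ≤ F ⊔ G)).toRingHom.toAlgebra
  have : IsScalarTower K F (F ⊔ G : IntermediateField K ℂ) := IsScalarTower.of_algebraMap_eq' rfl
  have hfd' : FiniteDimensional F (F ⊔ G : IntermediateField K ℂ) :=
    FiniteDimensional.right K F (F ⊔ G : IntermediateField K ℂ)
  have hgal' : IsGalois F (F ⊔ G : IntermediateField K ℂ) :=
    IsGalois.tower_top_of_isGalois K F (F ⊔ G : IntermediateField K ℂ)
  let f : (F ⊔ G : IntermediateField K ℂ) ≃ₐ[F] extendScalars (le_sup_left : F ≤ F ⊔ G) :=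
    { toFun := fun x => ⟨x.1, x.2⟩
      invFun := fun x => ⟨x.1, x.2⟩
      left_inv := fun x => rfl
      right_inv := fun x => rfl
      map_mul' := fun x y => rfl
      map_add' := fun x y => rfl
      commutes' := fun x => rfl }
  exact ⟨Module.Finite.equiv f.toLinearEquiv, IsGalois.of_algEquiv f⟩

theorem E5_top {F : Type*} [Field F] [Algebra F ℂ] (y : ℂ) :
    IntermediateField.adjoin F {AdjoinSimple.gen F y} = ⊤ := by
  apply IntermediateField.lift_injective
  rw [IntermediateField.lift_adjoin_simple, IntermediateField.lift_top, AdjoinSimple.coe_gen]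

/-- the Kummer extension -/
theorem E5_kum {F : Type*} [Field F] [NumberField F] [Algebra F ℂ] {l : ℕ} (hl : l.Prime) {ζ : F}
    (hζ : IsPrimitiveRoot ζ l) {w : F} {y : ℂ} (hy : y ^ l = algebraMap F ℂ w) (hw : ∀ z : F, z ^ l ≠ w) :
    FiniteDimensional F F⟮y⟯ ∧ IsGalois F F⟮y⟯ ∧ Module.finrank F F⟮y⟯ = l := by
  have hint : IsIntegral F y := by
    refine IsIntegral.of_pow (n := l) hl.pos ?_
    rw [hy]; exact isIntegral_algebraMap
  have hfd : FiniteDimensional F F⟮y⟯ := IntermediateField.adjoin.finiteDimensional hint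
  have hnf : NumberField F⟮y⟯ := NumberField.of_module_finite F _
  have hgen : (AdjoinSimple.gen F y) ^ l = algebraMap F F⟮y⟯ w := by
    apply Subtype.ext
    rw [SubmonoidClass.coe_pow, AdjoinSimple.coe_gen, hy]
    rfl
  have hdeg : Module.finrank F F⟮y⟯ = l := kummer_degree hl hgen (E5_top y) hw
  have hK : (primitiveRoots (Module.finrank F F⟮y⟯) F).Nonempty := by
    rw [hdeg]
    exact ⟨ζ, (mem_primitiveRoots hl.pos).2 hζ⟩
  have hgen' : (AdjoinSimple.gen F y) ^ (Module.finrank F F⟮y⟯) = algebraMap F F⟮y⟯ w := by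
    rw [hdeg]; exact hgen
  have h1 := isSplittingField_X_pow_sub_C_of_root_adjoin_eq_top hK hgen' (E5_top y)
  have h2 := irreducible_X_pow_sub_C_of_root_adjoin_eq_top hgen' (E5_top y)
  exact ⟨hfd, isGalois_of_isSplittingField_X_pow_sub_C hK h2 _, hdeg⟩

end aux

variable {K : Type*} [Field K] [NumberField K] [Algebra K ℝ] {σ₂ : K →+* ℝ} {m : Ideal (𝓞 K)}

theorem exists_P (hm : m ≠ ⊥) {H : IntermediateField K ℝ} {Art : RayClassGroup σ₂ m ≃* (H ≃ₐ[K] H)}
    (hr : IsRayClassField σ₂ m H Art) {M H₀ : IntermediateField K ℝ} (hM : M ≤ H₀) (hH₀ : H₀ ≤ H)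
    [FiniteDimensional K M] [IsGalois K M] [FiniteDimensional K H₀] [IsGalois K H₀] {l : ℕ} (hl : l.Prime) {e : 𝓞 K}
    (he : e ≠ 0) [NumberField (M1 M (e : K) l)] (hnot : ¬ H₀.map (jR K) ≤ M1 M (e : K) l) {W : Finset ℝ}
    (hW : ∀ w ∈ W, IsInt M w ∧ w ≠ 0 ∧ ∀ y ∈ M1 M (e : K) l, y ^ l ≠ (w : ℂ))
    (hcard : (W.card : ℝ) / l + 1 / 2 < 1) {B : Set (PrI K)} (hB : B.Finite) :
    ∃ P : PrI (M1 M (e : K) l), und K P ∉ B ∧ pn P = pn (und K P) ∧
      (∀ hq : ¬ (und K P).asIdeal ∣ m, ∃ x ∈ H₀, act (Art (cls σ₂ m (prJ m (und K P) hq))) x ≠ x) ∧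
      ∀ w ∈ W, ∀ w' : 𝓞 (M1 M (e : K) l), ((w' : M1 M (e : K) l) : ℂ) = (w : ℂ) →
        (Ideal.Quotient.mk P.asIdeal w') ^ ((pn P - 1) / l) ≠ 1 := by
  classical
  obtain ⟨hfd, hgal⟩ := M1_fd M (e : K) hl.ne_zero
  have hζC := Complex.isPrimitiveRoot_exp l hl.ne_zero
  set ζ : ℂ := Complex.exp (2 * Real.pi * Complex.I / l) with hζdef
  have hζM : ζ ∈ M1 M (e : K) l :=
    (le_sup_right : _ ≤ M1 M (e : K) l) (subset_adjoin K _ (Or.inl hζC.pow_eq_one))
  have hζ : IsPrimitiveRoot (⟨ζ, hζM⟩ : M1 M (e : K) l) l := by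
    rw [← IsPrimitiveRoot.coe_submonoidClass_iff]
    exact hζC
  have hwM : ∀ w ∈ W, (w : ℂ) ∈ M1 M (e : K) l := fun w hw =>
    (le_sup_left : _ ≤ M1 M (e : K) l) ⟨w, (hW w hw).1.1, rfl⟩
  choose y hy using fun w : ℝ => IsAlgClosed.exists_pow_nat_eq (w : ℂ) hl.pos
  have fH : FiniteDimensional K (H₀.map (jR K)) :=
    Module.Finite.equiv (IntermediateField.equivMap H₀ (jR K)).toLinearEquiv
  have gH : IsGalois K (H₀.map (jR K)) := IsGalois.of_algEquiv (IntermediateField.equivMap H₀ (jR K))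
  have hnone := E5_ext (M1 M (e : K) l) (H₀.map (jR K))
  have hsome : ∀ w : {w // w ∈ W}, FiniteDimensional (M1 M (e : K) l) (M1 M (e : K) l)⟮y w.1⟯ ∧
      IsGalois (M1 M (e : K) l) (M1 M (e : K) l)⟮y w.1⟯ ∧
      Module.finrank (M1 M (e : K) l) (M1 M (e : K) l)⟮y w.1⟯ = l := fun w =>
    E5_kum hl hζ (w := ⟨(w.1 : ℂ), hwM w.1 w.2⟩) (hy w.1)
      (fun z hz => (hW w.1 w.2).2.2 z z.2 (congrArg Subtype.val hz))
  let EE : Option {w // w ∈ W} → IntermediateField (M1 M (e : K) l) ℂ := fun i =>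
    match i with
    | none => extendScalars (le_sup_left : M1 M (e : K) l ≤ M1 M (e : K) l ⊔ H₀.map (jR K))
    | some w => (M1 M (e : K) l)⟮y w.1⟯
  have hNF : ∀ i, NumberField (EE i) := by
    rintro (_ | w)
    · have := hnone.1
      exact NumberField.of_module_finite (M1 M (e : K) l)
        (extendScalars (le_sup_left : M1 M (e : K) l ≤ M1 M (e : K) l ⊔ H₀.map (jR K)))
    · have := (hsome w).1
      exact NumberField.of_module_finite (M1 M (e : K) l) (M1 M (e : K) l)⟮y w.1⟯
  have hG : ∀ i, IsGalois (M1 M (e : K) l) (EE i) := by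
    rintro (_ | w)
    · exact hnone.2
    · exact (hsome w).2.1
  have h2 : 2 ≤ Module.finrank (M1 M (e : K) l) (EE none) := by
    have := hnone.1
    have h0 : 0 < Module.finrank (M1 M (e : K) l) (EE none) := Module.finrank_pos
    have h1 : Module.finrank (M1 M (e : K) l) (EE none) ≠ 1 := by
      intro h1
      have h3 : EE none = ⊥ := IntermediateField.finrank_eq_one_iff.1 h1
      apply hnot
      intro x hx
      have h4 : x ∈ EE none := (le_sup_right : _ ≤ M1 M (e : K) l ⊔ H₀.map (jR K)) hx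
      rw [h3, IntermediateField.mem_bot] at h4
      obtain ⟨z, rfl⟩ := h4
      exact z.2
    omega
  have hsum : ∑ i ∈ (Finset.univ : Finset (Option {w // w ∈ W})),
      (1 / (Module.finrank (M1 M (e : K) l) (EE i) : ℝ)) < 1 := by
    rw [Fintype.sum_option]
    have h3 : ∀ w : {w // w ∈ W}, (1 / (Module.finrank (M1 M (e : K) l) (EE (some w)) : ℝ)) = 1 / l :=
      fun w => by rw [show Module.finrank (M1 M (e : K) l) (EE (some w)) = l from (hsome w).2.2]
    rw [Finset.sum_congr rfl fun w _ => h3 w, Finset.sum_const, Finset.card_univ, Fintype.card_coe,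
      nsmul_eq_mul, mul_one_div]
    have h4 : (1 / (Module.finrank (M1 M (e : K) l) (EE none) : ℝ)) ≤ 1 / 2 := by
      apply one_div_le_one_div_of_le two_pos
      exact_mod_cast h2
    linarith
  have hl0 : Ideal.span {(l : 𝓞 (M1 M (e : K) l))} ≠ ⊥ := by
    rw [Ne, Ideal.span_singleton_eq_bot, Nat.cast_eq_zero]
    exact hl.ne_zero
  have hBfin : ({P : PrI (M1 M (e : K) l) | und K P ∈ B} ∪
      {P : PrI (M1 M (e : K) l) | (l : 𝓞 (M1 M (e : K) l)) ∈ P.asIdeal}).Finite := by
    refine Set.Finite.union ?_ ?_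
    · have h3 : {P : PrI (M1 M (e : K) l) | und K P ∈ B} ⊆
          ⋃ p ∈ B, ovr K (E := M1 M (e : K) l) p := by
        intro P hP
        exact Set.mem_biUnion (x := und K P) hP rfl
      exact (hB.biUnion fun p _ => finite_ovr K p).subset h3
    · refine (Ideal.finite_factors hl0).subset ?_
      intro P hP
      exact Ideal.dvd_iff_le.2 ((Ideal.span_singleton_le_iff_mem _).2 hP)
  obtain ⟨P, hPB, hPpn, hall⟩ := exists_good_prime (K := K) (F := M1 M (e : K) l) Finset.univ
    (fun i => EE i) hsum _ hBfin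
  rw [Set.mem_union, not_or] at hPB
  obtain ⟨hPB1, hPl⟩ := hPB
  have hPl : (l : 𝓞 (M1 M (e : K) l)) ∉ P.asIdeal := hPl
  have hdvd : l ∣ pn P - 1 := E5_dvd hl hζ hPl
  refine ⟨P, hPB1, hPpn, fun hq => ?_, fun w hw w' hw' hc => ?_⟩
  · by_contra hcon
    push Not at hcon
    obtain ⟨Q, hQ, -, hQ2⟩ := hall none (Finset.mem_univ _)
    subst hQ
    have := hNF none
    have := hG none
    obtain ⟨σ, hσ⟩ := exists_isFrob (K := M1 M (e : K) l) Q
    have hσK : IsFrob K Q (σ.restrictScalars K) := by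
      intro z
      rw [← und_und (E₁ := M1 M (e : K) l) Q, ← hPpn]
      exact hσ z
    have hmem : ∀ x : H₀, (((x : ℝ) : ℂ)) ∈ EE none := fun x =>
      (le_sup_right : _ ≤ M1 M (e : K) l ⊔ H₀.map (jR K)) ⟨x, x.2, rfl⟩
    let j : H₀ →ₐ[K] (EE none) :=
      { toFun := fun x => ⟨((x : ℝ) : ℂ), hmem x⟩
        map_one' := Subtype.ext Complex.ofReal_one
        map_mul' := fun a b => Subtype.ext (Complex.ofReal_mul _ _)
        map_zero' := Subtype.ext Complex.ofReal_zero
        map_add' := fun a b => Subtype.ext (Complex.ofReal_add _ _)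
        commutes' := fun r => Subtype.ext rfl }
    have e1 : und K (und (M1 M (e : K) l) Q) = und K Q := und_und Q
    have hq' : ¬ (und K Q).asIdeal ∣ m := by rw [← e1]; exact hq
    have hcls : ∀ (q q' : PrI K) (_ : q = q') (h : ¬ q.asIdeal ∣ m) (h' : ¬ q'.asIdeal ∣ m),
        cls σ₂ m (prJ m q h) = cls σ₂ m (prJ m q' h') := by
      rintro q q' rfl h h'
      rfl
    rw [hcls _ _ e1 hq hq'] at hcon
    have hfix : ∀ x : H₀, σ (j x) = j x := by
      intro x
      have h3 := E5_transfer hr hH₀ j hσK hq' x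
      have h4 : res hH₀ (Art (cls σ₂ m (prJ m (und K Q) hq'))) x = x := by
        apply Subtype.ext
        rw [← act_coe, act_res hH₀ _ x.2]
        exact hcon x x.2
      rw [h4] at h3
      exact h3
    have hle : (M1 M (e : K) l ⊔ H₀.map (jR K)) ≤ (fixL σ).restrictScalars K := by
      refine sup_le (fun z hz => ?_) ?_
      · exact (fixL σ).algebraMap_mem (⟨z, hz⟩ : M1 M (e : K) l)
      · rintro _ ⟨x, hx, rfl⟩
        exact (mem_fixL σ (hmem ⟨x, hx⟩)).2 (hfix ⟨x, hx⟩)
    have hσ1 : σ = 1 := by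
      apply AlgEquiv.ext
      intro z
      have h5 : (z : ℂ) ∈ fixL σ := hle z.2
      exact (mem_fixL σ z.2).1 h5
    exact hQ2 (hσ1 ▸ hσ)
  · obtain ⟨Q, hQ, -, hQ2⟩ := hall (some ⟨w, hw⟩) (Finset.mem_univ _)
    subst hQ
    have := hNF (some ⟨w, hw⟩)
    have := hG (some ⟨w, hw⟩)
    obtain ⟨σ, hσ⟩ := exists_isFrob (K := M1 M (e : K) l) Q
    have hgen : (AdjoinSimple.gen (M1 M (e : K) l) (y w)) ^ l =
        algebraMap (M1 M (e : K) l) (M1 M (e : K) l)⟮y w⟯ (w' : M1 M (e : K) l) := by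
      apply Subtype.ext
      rw [SubmonoidClass.coe_pow, AdjoinSimple.coe_gen, hy, ← hw']
      rfl
    have hwQ : w' ∉ (und (M1 M (e : K) l) Q).asIdeal := by
      intro h
      rw [← Ideal.Quotient.eq_zero_iff_mem] at h
      have h3 := two_le_pn (und (M1 M (e : K) l) Q)
      have h4 : (pn (und (M1 M (e : K) l) Q) - 1) / l ≠ 0 := by
        intro h5
        have h6 := Nat.div_mul_cancel hdvd
        rw [h5, zero_mul] at h6
        omega
      rw [h, zero_pow h4] at hc
      have := (und (M1 M (e : K) l) Q).isPrime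
      exact zero_ne_one hc
    have hσ1 := kummer_frob hl hζ hgen (E5_top _) hPl hwQ hdvd hc hσ
    exact hQ2 (hσ1 ▸ hσ)

end Pool.Agent.STr
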