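import Pool.Agent.Lib.MP_1ef7cf_nt_r.Df

/-!
# TASK V1: basic facts on levels

PROOF. `fd`, `gal`: fields of `rcf`. `comm`, `ab`: `IsRCF.comm`, `IsRCF.abelian` (with `IsRayClassField.isRCF`). `finite_cl`: `Art` is a
bijection to the finite group `Gal(H/K)`. `act_art`: `β` is `θ⁻¹ Art`, so `Art B = θ (β B)`; use `eq`. `act_pos`: `g = θ B` with
`B = θ⁻¹ g`, and `ev > 0`. `le`: `IsRCF.le` (with `B = B' = ∅`). `H_eq`: `le` in both directions. `act_art_pr`: `IsRCF.res_art` and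
`act_res`. `pr_surj`: take levels `L`, `L'` for `m`, `m'` (`Hy.lv`; `n ∣ m'` because `m' ≤ m`, `Ideal.dvd_iff_le`); `res` is
surjective (`res_surjective`), and `res (Art' C) = Art (pr C)`.
`Lz_c`: `zd_mul_c`. `ne_top`: `n ∣ m`, `n ≠ ⊤`.


-/

set_option autoImplicit false

open NumberField IsDedekindDomain nonZeroDivisors IntermediateField

namespace Pool.Agent.STr

open Pool.Agent.ST
open Pool.Agent.STc (IsInt rd IsUn)

variable {K : Type*} [Field K] [NumberField K] [Algebra K ℝ] {σ₂ : K →+* ℝ} {n m m' : Ideal (𝓞 K)}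

lemma ev_pos (A : RayClassGroup σ₂ m) : 0 < ev σ₂ m A := Real.exp_pos _

lemma Lv.fd (L : Lv σ₂ m) : FiniteDimensional K L.H := L.rcf.finite

lemma Lv.gal (L : Lv σ₂ m) : IsGalois K L.H := L.rcf.galois

lemma Lv.ab (L : Lv σ₂ m) : IsAbelianGalois K L.H := L.rcf.isRCF.abelian

lemma Lv.comm (L : Lv σ₂ m) (σ τ : L.H ≃ₐ[K] L.H) : σ * τ = τ * σ := L.rcf.isRCF.comm σ τ

lemma Lv.finite_cl (L : Lv σ₂ m) : Finite (RayClassGroup σ₂ m) := by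
  have := L.fd
  exact Finite.of_equiv _ L.Art.symm.toEquiv

lemma Hy.finite_cl (hy : Hy σ₂ n) (hm : m ≠ ⊥) (hnm : n ∣ m) : Finite (RayClassGroup σ₂ m) := by
  obtain ⟨L⟩ := hy.lv m hm hnm
  exact L.finite_cl

lemma Hy.ne_top (hy : Hy σ₂ n) (hnm : n ∣ m) : m ≠ ⊤ := by
  intro h
  have h1 := Ideal.dvd_iff_le.1 hnm
  rw [h] at h1
  exact hy.hn1 (top_le_iff.1 h1)

lemma Lv.act_art (L : Lv σ₂ m) (A B : RayClassGroup σ₂ m) :
    act (L.Art B) (ev σ₂ m A) = ev σ₂ m (A * L.β B) := by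
  have h : L.Art B = L.θ (L.β B) := (L.θ.apply_symm_apply (L.Art B)).symm
  rw [h, L.eq]

lemma Lv.act_pos (L : Lv σ₂ m) (A : RayClassGroup σ₂ m) (g : L.H ≃ₐ[K] L.H) : 0 < act g (ev σ₂ m A) := by
  have h : g = L.θ (L.θ.symm g) := (L.θ.apply_symm_apply g).symm
  rw [h, L.eq]
  exact ev_pos _

lemma Lv.le (L : Lv σ₂ m) (L' : Lv σ₂ m') (hle : m' ≤ m) (hm' : m' ≠ ⊥) : L.H ≤ L'.H :=
  IsRCF.le hle hm' Set.finite_empty Set.finite_empty L'.rcf.isRCF L.rcf.isRCF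

lemma Lv.H_eq (L L' : Lv σ₂ m) (hm : m ≠ ⊥) : L.H = L'.H :=
  le_antisymm (L.le L' le_rfl hm) (L'.le L le_rfl hm)

lemma Lv.act_art_pr (L : Lv σ₂ m) (L' : Lv σ₂ m') (hle : m' ≤ m) (hm' : m' ≠ ⊥) (C : RayClassGroup σ₂ m') {x : ℝ}
    (hx : x ∈ L.H) : act (L'.Art C) x = act (L.Art (pr σ₂ hle C)) x := by
  have := L.gal
  rw [← IsRCF.res_art hle hm' Set.finite_empty Set.finite_empty L'.rcf.isRCF L.rcf.isRCF
    (L.le L' hle hm') C, act_res _ _ hx]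

lemma Hy.pr_surj (hy : Hy σ₂ n) (hm : m ≠ ⊥) (hnm : n ∣ m) (hm' : m' ≠ ⊥) (hle : m' ≤ m) :
    Function.Surjective (pr σ₂ hle) := by
  obtain ⟨L⟩ := hy.lv m hm hnm
  obtain ⟨L'⟩ := hy.lv m' hm' (hnm.trans (Ideal.dvd_iff_le.2 hle))
  have := L.gal
  have := L'.gal
  intro B
  obtain ⟨γ, hγ⟩ := res_surjective (L.le L' hle hm') (L.Art B)
  refine ⟨L'.Art.symm γ, L.Art.injective ?_⟩
  rw [← IsRCF.res_art hle hm' Set.finite_empty Set.finite_empty L'.rcf.isRCF L.rcf.isRCF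
    (L.le L' hle hm'), L'.Art.apply_symm_apply, hγ]

lemma Hy.Lz_c (hy : Hy σ₂ n) (hm : m ≠ ⊥) (hnm : n ∣ m) {c : RayClassGroup σ₂ m} (hc : IsC σ₂ m c)
    (A : RayClassGroup σ₂ m) : Lz σ₂ m A + Lz σ₂ m (A * c) = 0 := by
  have h := zd_mul_c hy.h2 hy.hσ hm (hy.ne_top hnm) hc A
  rw [Lz, Lz, ← mul_add, h, mul_zero]

end Pool.Agent.STr
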