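import Pool.Agent.Lib.MP_1ef7cf_nt_r.Mg.G002
import Pool.Agent.Lib.MP_1ef7cf_nt_r.Mg.G001

/-!
# The sets `X` at two levels
-/

set_option autoImplicit false

open NumberField IsDedekindDomain nonZeroDivisors IntermediateField

namespace Pool.Agent.STr

open Pool.Agent.ST
open Pool.Agent.STc (IsInt rd IsUn)

variable {K : Type*} [Field K] [NumberField K] [Algebra K ℝ] {σ₂ : K →+* ℝ} {n m m' m'' : Ideal (𝓞 K)}

theorem SS_UU (hy : Hy σ₂ n) (hm : m ≠ ⊥) (hnm : n ∣ m) (hm' : m' ≠ ⊥) (hle : m' ≤ m) (c : ℝ →ₗ[ℚ] ℚ)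
    (χ : RayClassGroup σ₂ m →* ℂˣ) : SS c (UU hle) χ = SS c (Lz σ₂ m') (χ.comp (pr σ₂ hle)) := by
  classical
  have hnm' : n ∣ m' := hnm.trans (Ideal.dvd_iff_le.2 hle)
  have f1 := hy.finite_cl hm hnm
  have f2 := hy.finite_cl hm' hnm'
  have := Fintype.ofFinite (RayClassGroup σ₂ m)
  have := Fintype.ofFinite (RayClassGroup σ₂ m')
  rw [SS_eq, SS_eq, ← Finset.sum_fiberwise (s := (Finset.univ : Finset (RayClassGroup σ₂ m')))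
    (g := fun A' => pr σ₂ hle A')]
  refine Finset.sum_congr rfl fun A _ => ?_
  have h1 : UU hle A = ∑ A' ∈ Finset.univ.filter (fun A' : RayClassGroup σ₂ m' => pr σ₂ hle A' = A), Lz σ₂ m' A' := by
    unfold UU
    rw [finsum_mem_eq_finite_toFinset_sum _ (Set.toFinite _)]
    refine Finset.sum_congr ?_ fun _ _ => rfl
    ext A'
    simp
  rw [h1, map_sum, Rat.cast_sum, Finset.mul_sum]
  refine Finset.sum_congr rfl fun A' hA' => ?_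
  have h2 : pr σ₂ hle A' = A := (Finset.mem_filter.1 hA').2
  rw [MonoidHom.comp_apply, h2]

theorem SS_pr (hy : Hy σ₂ n) (hm : m ≠ ⊥) (hnm : n ∣ m) (hm' : m' ≠ ⊥) (hle : m' ≤ m) (c : ℝ →ₗ[ℚ] ℚ)
    (χ : RayClassGroup σ₂ m →* ℂˣ) :
    SS c (Lz σ₂ m') (χ.comp (pr σ₂ hle)) = EE χ m' * SS c (Lz σ₂ m) χ := by
  classical
  have f1 := hy.finite_cl hm hnm
  have := Fintype.ofFinite (RayClassGroup σ₂ m)
  obtain ⟨e, he, hE⟩ := UU_all hy hm hnm hm' hle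
  rw [← SS_UU hy hm hnm hm' hle, SS_eq, ← hE χ, finsum_eq_sum_of_fintype, Finset.sum_mul]
  have h1 : ∀ A : RayClassGroup σ₂ m, (((χ A)⁻¹ : ℂˣ) : ℂ) * ((c (UU hle A) : ℚ) : ℂ) =
      ∑ g : RayClassGroup σ₂ m, (e g : ℂ) * ((((χ A)⁻¹ : ℂˣ) : ℂ) * ((c (Lz σ₂ m (A * g)) : ℚ) : ℂ)) := by
    intro A
    rw [he A, finsum_eq_sum_of_fintype, map_sum, Rat.cast_sum, Finset.mul_sum]
    refine Finset.sum_congr rfl fun g _ => ?_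
    have h2 : (e g : ℝ) * Lz σ₂ m (A * g) = e g • Lz σ₂ m (A * g) := by
      rw [zsmul_eq_mul]
    rw [h2, map_zsmul, zsmul_eq_mul]
    push_cast
    ring
  simp_rw [h1]
  rw [Finset.sum_comm]
  refine Finset.sum_congr rfl fun g _ => ?_
  rw [← Finset.mul_sum, A2_shift, mul_assoc]

theorem InX_pr (hy : Hy σ₂ n) (hm : m ≠ ⊥) (hnm : n ∣ m) (hm' : m' ≠ ⊥) (hle : m' ≤ m)
    (χ : RayClassGroup σ₂ m →* ℂˣ) :
    InX (Lz σ₂ m') (χ.comp (pr σ₂ hle)) ↔ InX (Lz σ₂ m) χ ∧ EE χ m' ≠ 0 := by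
  constructor
  · rintro ⟨c, hc⟩
    rw [SS_pr hy hm hnm hm' hle] at hc
    exact ⟨⟨c, right_ne_zero_of_mul hc⟩, left_ne_zero_of_mul hc⟩
  · rintro ⟨⟨c, hc⟩, hE⟩
    refine ⟨c, ?_⟩
    rw [SS_pr hy hm hnm hm' hle]
    exact mul_ne_zero hE hc

theorem EE_ne_zero (hm' : m' ≠ ⊥) (χ : RayClassGroup σ₂ m →* ℂˣ) :
    EE χ m' ≠ 0 ↔ ∀ (q : PrI K) (h : ¬ q.asIdeal ∣ m), q.asIdeal ∣ m' → χ (cls σ₂ m (prJ m q h)) ≠ 1 := by
  unfold EE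
  rw [finprod_mem_eq_finite_toFinset_prod _ (Nw_finite m hm'), Finset.prod_ne_zero_iff]
  have key : ∀ (q : PrI K) (h : ¬ q.asIdeal ∣ m), (1 - (chQ χ q)⁻¹ ≠ 0 ↔ χ (cls σ₂ m (prJ m q h)) ≠ 1) := by
    intro q h
    unfold chQ
    rw [dif_pos h, not_iff_not]
    rw [sub_eq_zero, eq_comm, inv_eq_one, Units.val_eq_one]
  constructor
  · intro h q hq hqm
    exact (key q hq).1 (h q ((Set.Finite.mem_toFinset _).2 ⟨hqm, hq⟩))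
  · intro h q hq
    obtain ⟨h1, h2⟩ := (Set.Finite.mem_toFinset _).1 hq
    exact (key q h2).2 (h q h2 h1)

theorem InX.lift (hy : Hy σ₂ n) (hm : m ≠ ⊥) (hnm : n ∣ m) (hm' : m' ≠ ⊥) (hle : m' ≤ m)
    {χ : RayClassGroup σ₂ m →* ℂˣ} (hχ : InX (Lz σ₂ m) χ)
    (h : ∀ (q : PrI K) (h : ¬ q.asIdeal ∣ m), q.asIdeal ∣ m' → χ (cls σ₂ m (prJ m q h)) ≠ 1) :
    InX (Lz σ₂ m') (χ.comp (pr σ₂ hle)) :=
  (InX_pr hy hm hnm hm' hle χ).2 ⟨hχ, (EE_ne_zero hm' χ).2 h⟩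

end Pool.Agent.STr
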